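import Pool.Agent.Y366.PG.Inf

/-!
# Planar graphs plus one edge
-/

set_option autoImplicit false

namespace Pool.Agent.Y366.PG

open SimpleGraph
open Pool.Agent.H239R2.Planar

theorem finrank_lt {ι M : Type*} [Fintype ι] [Nonempty ι] [AddCommGroup M] [Module ℚ M]
    (v : ι → M) (h : ∑ i, v i = 0) :
    Module.finrank ℚ (Submodule.span ℚ (Set.range v)) < Fintype.card ι := by
  classical
  have h1 : Module.finrank ℚ (Submodule.span ℚ (Set.range v)) ≤ Fintype.card ι :=
    finrank_range_le_card v
  refine lt_of_le_of_ne h1 ?_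
  intro h2
  have h3 : LinearIndependent ℚ v := by
    rw [linearIndependent_iff_card_eq_finrank_span]
    exact h2.symm
  rw [Fintype.linearIndependent_iff] at h3
  have h4 := h3 (fun _ => 1) (by simpa using h) (Classical.arbitrary ι)
  exact one_ne_zero h4

section

variable {V : Type} [Fintype V] (G : SimpleGraph V) (σ : Equiv.Perm G.Dart)

open Classical in
theorem sum_DD_ind (A : Finset (Sym2 V)) :
    ∑ X : {X : Reg G σ A // (bdr G σ A X).Nonempty}, DD G σ (ind G σ A X.1) = 0 := by
  have h1 : ∑ X : {X : Reg G σ A // (bdr G σ A X).Nonempty}, DD G σ (ind G σ A X.1) =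
      ∑ X : Reg G σ A, DD G σ (ind G σ A X) := by
    rw [← Finset.sum_subtype (Finset.univ.filter fun X : Reg G σ A =>
        (bdr G σ A X).Nonempty) (by simp) (fun X => DD G σ (ind G σ A X))]
    apply Finset.sum_subset (Finset.filter_subset _ _)
    intro X _ hX
    apply DD_ind_eq_zero
    simpa [Finset.not_nonempty_iff_eq_empty] using hX
  rw [h1, ← map_sum]
  ext e
  rw [DD_apply]
  simp [ind, Finset.sum_apply]

end

open Classical in
/-- Strong form of `planar_sparse`: faces are one more than the dimension of the cycle space. -/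
theorem planar_sparse_strong {V : Type} [Fintype V] (G : SimpleGraph V) (hG : IsPlanar G) (m : ℕ)
    (hg : ((2 * m : ℕ) : ℕ∞) ≤ G.egirth) (A : Finset (Sym2 V))
    (hA : (A : Set (Sym2 V)) ⊆ G.edgeSet) :
    A.card ≤ rk A ∨ m * (A.card + 1) ≤ m * rk A + A.card := by
  obtain ⟨σ, hσ, heu⟩ := hG
  -- the cycles supported on `A`
  set L := (bdry G).comp (ext0 G A) with hL
  have h1 := LinearMap.finrank_range_add_finrank_ker L
  rw [Module.finrank_fintype_fun_eq_card] at h1
  have h2 : Fintype.card {e : G.edgeSet // e.1 ∈ A} = A.card := by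
    rw [← Fintype.card_coe A]
    apply Fintype.card_congr
    exact
      { toFun := fun e => ⟨e.1.1, e.2⟩
        invFun := fun e => ⟨⟨e.1, hA e.2⟩, e.2⟩
        left_inv := fun _ => rfl
        right_inv := fun _ => rfl }
  have h3 := range_le G A
  rw [← hL] at h3
  -- dimension of the cycle space
  set P := {X : Reg G σ A // (bdr G σ A X).Nonempty} with hP
  have h4 : (LinearMap.ker L).map (ext0 G A) ≤ Submodule.span ℚ (Set.range
      (fun X : P => DD G σ (ind G σ A X.1))) := by
    rintro _ ⟨y, hy, rfl⟩
    have hy' : bdry G (ext0 G A y) = 0 := hy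
    have h5 : ext0 G A y ∈ LinearMap.range (DD G σ) := by
      rw [ker_bdry G hσ heu]
      exact hy'
    obtain ⟨ψ, hψ⟩ := h5
    rw [← hψ]
    apply mem_span_of_supported
    intro d hd
    have h6 : DD G σ ψ ⟨d.edge, d.edge_mem⟩ = 0 := by
      rw [hψ]
      simp [ext0, hd]
    rw [DD_apply, sub_eq_zero] at h6
    rcases (dart_edge_eq_iff _ _).mp (dt_edge G ⟨d.edge, d.edge_mem⟩) with h7 | h7
    · rw [h7] at h6; exact h6
    · rw [h7, Dart.symm_symm] at h6; exact h6.symm
  have h5 : Module.finrank ℚ (LinearMap.ker L) ≤ Module.finrank ℚ (Submodule.span ℚ (Set.range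
      (fun X : P => DD G σ (ind G σ A X.1)))) := by
    have h6 := Submodule.finrank_mono h4
    rwa [← (Submodule.equivMapOfInjective _ (ext0_inj G A) (LinearMap.ker L)).finrank_eq] at h6
  have h6 : 2 * m * Fintype.card P ≤ 2 * A.card := by
    refine le_trans ?_ (sum_bdr_le G σ A)
    have h7 : ∑ X : P, (bdr G σ A X.1).card ≤ ∑ X : Reg G σ A, (bdr G σ A X).card := by
      rw [← Finset.sum_subtype (Finset.univ.filter fun X : Reg G σ A =>
        (bdr G σ A X).Nonempty) (by simp) (fun X => (bdr G σ A X).card)]
      exact Finset.sum_le_sum_of_subset (Finset.filter_subset _ _)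
    refine le_trans ?_ h7
    rw [mul_comm, ← smul_eq_mul, ← Finset.card_univ]
    apply Finset.card_nsmul_le_sum
    rintro ⟨X, hX⟩ _
    have h8 := even_card_ge_girth G (bdr G σ A X)
      (fun e he => hA (Finset.mem_filter.mp he).1) hX (bdr_even G hσ A X)
    exact_mod_cast hg.trans h8
  have h7 : m * Fintype.card P ≤ A.card := by nlinarith
  rcases isEmpty_or_nonempty P with hE | hE
  · left
    have h8 : Module.finrank ℚ (Submodule.span ℚ (Set.range
      (fun X : P => DD G σ (ind G σ A X.1)))) ≤ Fintype.card P := finrank_range_le_card _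
    have h9 : Fintype.card P = 0 := Fintype.card_eq_zero
    omega
  · right
    have h8 := finrank_lt (fun X : P => DD G σ (ind G σ A X.1)) (sum_DD_ind G σ A)
    have h9 : A.card + 1 ≤ rk A + Fintype.card P := by omega
    nlinarith [Nat.mul_le_mul_left m h9]

open Classical in
/-- Two vertices whose difference lies in the span of the edges of `A` are joined by a path in `A`. -/
theorem reachable_of_mem {V : Type} [Fintype V] (A : Finset (Sym2 V)) (x y : V)
    (h : (Pi.single x 1 - Pi.single y 1 : V → ℚ) ∈ Submodule.span ℚ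
      {z : V → ℚ | ∃ u v : V, s(u, v) ∈ A ∧ z = Pi.single u 1 - Pi.single v 1}) :
    (fromEdgeSet (A : Set (Sym2 V))).Reachable x y := by
  set H := fromEdgeSet (A : Set (Sym2 V)) with hH
  let φ : (V → ℚ) →ₗ[ℚ] ℚ :=
    ∑ w ∈ Finset.univ.filter (fun w => H.Reachable x w), LinearMap.proj w
  have hφ : ∀ u, φ (Pi.single u 1) = if H.Reachable x u then 1 else 0 := by
    intro u
    simp only [φ, LinearMap.sum_apply, LinearMap.proj_apply, Pi.single_apply]
    rw [Finset.sum_ite_eq']
    simp
  have h1 : Submodule.span ℚ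
      {z : V → ℚ | ∃ u v : V, s(u, v) ∈ A ∧ z = Pi.single u 1 - Pi.single v 1} ≤
      LinearMap.ker φ := by
    rw [Submodule.span_le]
    rintro _ ⟨u, v, huv, rfl⟩
    rw [SetLike.mem_coe, LinearMap.mem_ker, map_sub, hφ, hφ]
    by_cases huv' : u = v
    · subst huv'; simp
    · have hadj : H.Adj u v := by
        rw [hH, fromEdgeSet_adj]
        exact ⟨by exact_mod_cast huv, huv'⟩
      have : H.Reachable x u ↔ H.Reachable x v :=
        ⟨fun h => h.trans hadj.reachable, fun h => h.trans hadj.symm.reachable⟩
      simp only [this, sub_self]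
  have h2 := h1 h
  rw [LinearMap.mem_ker, map_sub, hφ, hφ, if_pos (Reachable.refl x)] at h2
  by_contra hcon
  rw [if_neg hcon] at h2
  norm_num at h2

open Classical in
/-- Finite planar graph of girth at least `4k+2` plus one edge between vertices at distance at least
`2k`. -/
theorem plus_edge {V : Type} [Fintype V] (G : SimpleGraph V) (hG : IsPlanar G) (k : ℕ) (hk : 1 ≤ k)
    (hg : ((4 * k + 2 : ℕ) : ℕ∞) ≤ G.egirth) (x y : V)
    (hxy : ∀ p : G.Walk x y, 2 * k ≤ p.length) :
    Nonempty ((G ⊔ edge x y) →g cycleGraph (2 * k + 1)) := by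
  have hg' : ((2 * (2 * k + 1) : ℕ) : ℕ∞) ≤ G.egirth := by
    rw [show 2 * (2 * k + 1) = 4 * k + 2 by ring]
    exact hg
  have hne : x ≠ y := by
    rintro rfl
    have := hxy Walk.nil
    simp at this
    omega
  apply Pool.Agent.H239R2.Cover.hom_of_sparse _ k hk
  intro A hA
  have hadjG : ∀ a ∈ A, a ≠ s(x, y) → a ∈ G.edgeSet := by
    intro a ha hne'
    have h1 := hA (by exact_mod_cast ha)
    rw [edgeSet_sup] at h1
    rcases h1 with h1 | h1
    · exact h1
    · exfalso
      apply hne'
      induction a using Sym2.ind with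
      | _ u v =>
        rw [mem_edgeSet, edge_adj] at h1
        rcases h1.1 with ⟨h2, h3⟩ | ⟨h2, h3⟩
        · rw [h2, h3]
        · rw [h2, h3]; exact Sym2.eq_swap
  by_cases hmem : s(x, y) ∈ A
  · set B := A.erase s(x, y) with hB
    have hBcard : A.card = B.card + 1 := by
      rw [hB, Finset.card_erase_of_mem hmem]
      have := Finset.card_pos.2 ⟨_, hmem⟩
      omega
    have hBG : (B : Set (Sym2 V)) ⊆ G.edgeSet := by
      intro a ha
      have h1 := Finset.mem_erase.1 (show a ∈ A.erase s(x, y) by exact_mod_cast ha)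
      exact hadjG a h1.2 h1.1
    have hsub : Submodule.span ℚ
        {z : V → ℚ | ∃ u v : V, s(u, v) ∈ B ∧ z = Pi.single u 1 - Pi.single v 1} ≤
        Submodule.span ℚ
        {z : V → ℚ | ∃ u v : V, s(u, v) ∈ A ∧ z = Pi.single u 1 - Pi.single v 1} := by
      apply Submodule.span_mono
      rintro z ⟨u, v, huv, rfl⟩
      exact ⟨u, v, Finset.mem_of_mem_erase huv, rfl⟩
    have hrk : rk B ≤ rk A := Submodule.finrank_mono hsub
    rcases planar_sparse_strong G hG (2 * k + 1) hg' B hBG with h | h
    · -- `B` is a forest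
      by_cases hr : rk B < rk A
      · have : A.card ≤ rk A := by omega
        have := Nat.mul_le_mul_left (2 * k + 1) this
        omega
      · have heq : rk B = rk A := le_antisymm hrk (not_lt.1 hr)
        have hspan := Submodule.eq_of_le_of_finrank_eq hsub heq
        have hin : (Pi.single x 1 - Pi.single y 1 : V → ℚ) ∈ Submodule.span ℚ
            {z : V → ℚ | ∃ u v : V, s(u, v) ∈ B ∧ z = Pi.single u 1 - Pi.single v 1} := by
          rw [hspan]
          exact Submodule.subset_span ⟨x, y, hmem, rfl⟩
        obtain ⟨p, hp⟩ := (reachable_of_mem B x y hin).exists_isPath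
        have hle : fromEdgeSet (B : Set (Sym2 V)) ≤ G := by
          intro u v huv
          rw [fromEdgeSet_adj] at huv
          exact G.mem_edgeSet.1 (hBG huv.1)
        have h1 := hxy (p.mapLe hle)
        rw [Walk.length_mapLe] at h1
        have h2 : p.edges.toFinset ⊆ B := by
          intro e he
          rw [List.mem_toFinset] at he
          have h3 := Walk.edges_subset_edgeSet p he
          rw [edgeSet_fromEdgeSet] at h3
          exact_mod_cast h3.1
        have h3 := Finset.card_le_card h2
        rw [List.toFinset_card_of_nodup hp.isTrail.edges_nodup, Walk.length_edges] at h3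
        have h4 : B.card ≤ rk A := by omega
        have h5 := Nat.mul_le_mul_left (2 * k + 1) h4
        have h6 : (2 * k + 1) * A.card = (2 * k + 1) * B.card + (2 * k + 1) := by
          rw [hBcard]; ring
        omega
    · have h1 := Nat.mul_le_mul_left (2 * k + 1) hrk
      rw [hBcard]
      omega
  · apply (show _ ≤ _ from planar_sparse G hG (2 * k + 1) hg' A ?_)
    intro a ha
    have ha' : a ∈ A := by exact_mod_cast ha
    exact hadjG a ha' (fun h => hmem (h ▸ ha'))

end Pool.Agent.Y366.PG
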