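import Pool.Agent.Y366.PG.Edge

/-!
# Planar graphs plus one edge, finite or infinite
-/

set_option autoImplicit false

namespace Pool.Agent.Y366.PG

open SimpleGraph
open Pool.Agent.H239R2.Planar

universe u

/-- A planar graph of girth at least `4k+2`, finite or infinite, plus one edge between two vertices
at distance at least `2k`. -/
theorem plus_edge_inf {V : Type u} (G : SimpleGraph V) (k : ℕ) (hk : 1 ≤ k)
    (hG : ∀ S : Finset V, ∃ (W : Type) (_ : Fintype W) (H : SimpleGraph W) (f : H ↪g G),
      (S : Set V) ⊆ Set.range f ∧ IsPlanar H)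
    (hg : ((4 * k + 2 : ℕ) : ℕ∞) ≤ G.egirth) (x y : V)
    (hxy : ∀ p : G.Walk x y, 2 * k ≤ p.length) :
    ∃ F : G →g cycleGraph (2 * k + 1), (cycleGraph (2 * k + 1)).Adj (F x) (F y) := by
  classical
  have hne : x ≠ y := by
    rintro rfl
    have := hxy Walk.nil
    simp at this
    omega
  have key : Nonempty ((G ⊔ edge x y) →g cycleGraph (2 * k + 1)) := by
    apply hom_of_local
    intro S
    obtain ⟨W, hW, H, f, hS, hH⟩ := hG (insert x (insert y S))
    obtain ⟨x', rfl⟩ := hS (show x ∈ ((insert x (insert y S) : Finset V) : Set V) by simp)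
    obtain ⟨y', rfl⟩ := hS (show y ∈ ((insert (f x') (insert y S) : Finset V) : Set V) by simp)
    have hiff : ∀ a b : W, (G ⊔ edge (f x') (f y')).Adj (f a) (f b) ↔ (H ⊔ edge x' y').Adj a b := by
      intro a b
      simp only [sup_adj, edge_adj, f.map_adj_iff, f.injective.eq_iff, f.injective.ne_iff]
    let f' : (H ⊔ edge x' y') ↪g (G ⊔ edge (f x') (f y')) :=
      { toFun := f
        inj' := f.injective
        map_rel_iff' := fun {a b} => hiff a b }
    refine ⟨W, H ⊔ edge x' y', f', ?_, ?_⟩
    · intro v hv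
      exact hS (by simp only [Finset.coe_insert]; exact Or.inr (Or.inr hv))
    · apply plus_edge H hH k hk (girth_le f hg)
      intro p
      have h1 := hxy (p.map f.toHom)
      rwa [Walk.length_map] at h1
  obtain ⟨F⟩ := key
  refine ⟨F.comp (Hom.ofLE le_sup_left), ?_⟩
  apply F.map_adj
  rw [sup_adj, edge_adj]
  exact Or.inr ⟨Or.inl ⟨rfl, rfl⟩, hne⟩

end Pool.Agent.Y366.PG
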