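import Pool.Agent.Results.MP_da739a_co.PlanarGirth
import Pool.Agent.Results.MP_da739a_co.SparseGraphs

/-!
# Homomorphisms of infinite graphs to odd cycles, by compactness
-/

set_option autoImplicit false

namespace Pool.Agent.Y366.PG

open SimpleGraph
open Pool.Agent.H239R2.Planar (IsPlanar HasStraightLineDrawing)

universe u

/-- If every finite set of vertices lies in the range of an embedding of a graph that maps to the
cycle, then the whole graph maps to the cycle. -/
theorem hom_of_local {V : Type u} (G : SimpleGraph V) (m : ℕ)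
    (h : ∀ S : Finset V, ∃ (W : Type) (H : SimpleGraph W) (f : H ↪g G),
      (S : Set V) ⊆ Set.range f ∧ Nonempty (H →g cycleGraph m)) :
    Nonempty (G →g cycleGraph m) := by
  classical
  apply nonempty_hom_of_forall_finite_subgraph_hom
  intro G' hfin
  let S : Finset V := hfin.toFinset
  have h0 := h S
  let W : Type := h0.choose
  let H : SimpleGraph W := h0.choose_spec.choose
  let f : H ↪g G := h0.choose_spec.choose_spec.choose
  have hr : (S : Set V) ⊆ Set.range f := h0.choose_spec.choose_spec.choose_spec.1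
  let F : H →g cycleGraph m := h0.choose_spec.choose_spec.choose_spec.2.some
  have hpre : ∀ v : G'.verts, ∃ w : W, f w = v.1 := by
    intro v
    exact hr (by simp [S])
  choose p hp using hpre
  refine ⟨fun v => F (p v), ?_⟩
  intro a b hab
  apply F.map_adj
  have h1 : G.Adj a.1 b.1 := G'.adj_sub hab
  rw [← hp a, ← hp b] at h1
  exact f.map_adj_iff.1 h1

/-- The girth does not drop when one passes to a subgraph. -/
theorem girth_le {V W : Type*} {G : SimpleGraph V} {H : SimpleGraph W} (f : H ↪g G) {n : ℕ∞}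
    (h : n ≤ G.egirth) : n ≤ H.egirth := by
  rw [le_egirth] at h ⊢
  intro a w hw
  have h1 := h (f a) (w.map f.toHom) ((Walk.isCycle_map_iff_of_injective f.injective).2 hw)
  rwa [Walk.length_map] at h1

/-- Sparse graphs, finite or infinite. -/
theorem sparse {V : Type u} (G : SimpleGraph V) (k : ℕ) (hk : 1 ≤ k)
    (hG : ∀ D : Finset V, D.Nonempty →
        (Nat.card {e : Sym2 V // e ∈ G.edgeSet ∧ ∀ v ∈ e, v ∈ D} : ℝ)
          ≤ (1 + 1 / (2 * k)) * ((D.card : ℝ) - 1)) :
    Nonempty (G →g cycleGraph (2 * k + 1)) := by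
  classical
  apply hom_of_local
  intro S
  let e := S.equivFin.symm
  let j : Fin S.card ↪ V := ⟨fun i => (e i).1, fun a b hab => e.injective (Subtype.ext hab)⟩
  refine ⟨Fin S.card, G.comap j, Embedding.comap j G, ?_, ?_⟩
  · intro v hv
    refine ⟨S.equivFin ⟨v, hv⟩, ?_⟩
    change (e (S.equivFin ⟨v, hv⟩)).1 = v
    simp [e]
  · apply Pool.Agent.Results.MP_da739a_co.SparseGraphs.result k hk
    intro D hD
    have h1 := hG (D.map j) (hD.map)
    rw [Finset.card_map] at h1
    refine le_trans ?_ h1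
    have hfin : Finite {e : Sym2 V // e ∈ G.edgeSet ∧ ∀ v ∈ e, v ∈ D.map j} := by
      apply Set.Finite.subset ((D.map j).sym2.finite_toSet)
      rintro x ⟨-, hx⟩
      exact Finset.mem_coe.2 (Finset.mem_sym2_iff.2 hx)
    have h2 : Nat.card {e : Sym2 (Fin S.card) // e ∈ (G.comap j).edgeSet ∧ ∀ v ∈ e, v ∈ D} ≤
        Nat.card {e : Sym2 V // e ∈ G.edgeSet ∧ ∀ v ∈ e, v ∈ D.map j} := by
      have hmap : ∀ x : {e : Sym2 (Fin S.card) // e ∈ (G.comap j).edgeSet ∧ ∀ v ∈ e, v ∈ D},
          Sym2.map j x.1 ∈ G.edgeSet ∧ ∀ v ∈ Sym2.map j x.1, v ∈ D.map j := by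
        rintro ⟨x, hx1, hx2⟩
        constructor
        · induction x using Sym2.ind with
          | _ a b => exact hx1
        · intro v hv
          rw [Sym2.mem_map] at hv
          obtain ⟨w, hw, rfl⟩ := hv
          exact Finset.mem_map_of_mem j (hx2 w hw)
      refine Nat.card_le_card_of_injective (fun x => ⟨_, hmap x⟩) ?_
      intro x y hxy
      exact Subtype.ext (Sym2.map.injective j.injective (congrArg Subtype.val hxy))
    exact_mod_cast h2

/-- Planar graphs of girth at least `4 k + 2`, finite or infinite. -/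
theorem planar {V : Type u} (G : SimpleGraph V) (k : ℕ) (hk : 1 ≤ k)
    (hG : ∀ S : Finset V, ∃ (W : Type) (_ : Fintype W) (H : SimpleGraph W) (f : H ↪g G),
      (S : Set V) ⊆ Set.range f ∧ (IsPlanar H ∨ HasStraightLineDrawing H))
    (hg : ((4 * k + 2 : ℕ) : ℕ∞) ≤ G.egirth) :
    Nonempty (G →g cycleGraph (2 * k + 1)) := by
  apply hom_of_local
  intro S
  obtain ⟨W, hW, H, f, hS, hH⟩ := hG S
  exact ⟨W, H, f, hS, Pool.Agent.Results.MP_da739a_co.PlanarGirth.result k hk W H hH
    (girth_le f hg)⟩

end Pool.Agent.Y366.PG
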